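import Pool.Agent.W622.BK.Stm

/-! # Part NZA: the combinatorial identity behind `⟨d g, ω⟩ = 0` -/

set_option autoImplicit false

namespace Pool.Agent.W368.BK

universe u

open Pool.Agent.W622.BK

/-- deleting the entry `i` of an increasing sequence -/
def del {n N : ℕ} (x : (Fin (n + 1) ↪o Fin N) × Fin (n + 1)) : (Fin n ↪o Fin N) × Fin N :=
  ((Fin.succAboveOrderEmb x.2).trans x.1, x.1 x.2)

theorem range_del {n N : ℕ} (x : (Fin (n + 1) ↪o Fin N) × Fin (n + 1)) :
    Set.range x.1 = insert (del x).2 (Set.range (del x).1) := by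
  obtain ⟨I, i⟩ := x
  ext y
  constructor
  · rintro ⟨t, rfl⟩
    by_cases ht : t = i
    · left; rw [ht]; rfl
    · right
      obtain ⟨z, hz⟩ := Fin.exists_succAbove_eq ht
      exact ⟨z, by rw [← hz]; rfl⟩
  · rintro (rfl | ⟨t, rfl⟩)
    · exact ⟨i, rfl⟩
    · exact ⟨i.succAbove t, rfl⟩

theorem oe_range {n N : ℕ} (I I' : Fin n ↪o Fin N) (h : Set.range I = Set.range I') : I = I' := by
  have := (StrictMono.range_inj I.strictMono I'.strictMono).1 h
  exact DFunLike.coe_injective this

/-- inserting one element into an increasing sequence -/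
theorem sumA {k : Type u} [AddCommMonoid k] (n N : ℕ) (Φ : Fin N → (Fin n → Fin N) → k)
    (hΦ : ∀ (K : Fin n ↪o Fin N) (p : Fin N), p ∈ Set.range K → Φ p K = 0) :
    ∑ I : Fin (n + 1) ↪o Fin N, ∑ i : Fin (n + 1), Φ (I i) (fun t : Fin n => I (i.succAbove t))
      = ∑ K : Fin n ↪o Fin N, ∑ p : Fin N, Φ p K := by
  classical
  rw [← Fintype.sum_prod_type' (f := fun (I : Fin (n + 1) ↪o Fin N) (i : Fin (n + 1)) =>
      Φ (I i) (fun t : Fin n => I (i.succAbove t))),
    ← Fintype.sum_prod_type' (f := fun (K : Fin n ↪o Fin N) (p : Fin N) => Φ p K)]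
  have h1 : ∑ x : (Fin n ↪o Fin N) × Fin N, Φ x.2 x.1 =
      ∑ x ∈ Finset.univ.filter (fun x : (Fin n ↪o Fin N) × Fin N => x.2 ∉ Set.range x.1),
        Φ x.2 x.1 := by
    rw [Finset.sum_filter_of_ne]
    intro x _ hx hmem
    exact hx (hΦ x.1 x.2 hmem)
  rw [h1]
  refine Finset.sum_nbij del ?_ ?_ ?_ ?_
  · intro x _
    rw [Finset.mem_filter]
    refine ⟨Finset.mem_univ _, ?_⟩
    rintro ⟨t, ht⟩
    exact Fin.succAbove_ne x.2 t (x.1.injective ht)
  · intro x _ x' _ h
    have hI : x.1 = x'.1 := by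
      apply oe_range
      rw [range_del, range_del, h]
    have h2 : x.1 x.2 = x'.1 x'.2 := congrArg Prod.snd h
    rw [← hI] at h2
    exact Prod.ext hI (x.1.injective h2)
  · rintro ⟨K, p⟩ hx
    have hp : p ∉ Set.range K := (Finset.mem_filter.1 (Finset.mem_coe.1 hx)).2
    set s : Finset (Fin N) := insert p (Finset.univ.image K) with hs
    have hcard : s.card = n + 1 := by
      rw [hs, Finset.card_insert_of_notMem, Finset.card_image_of_injective _ K.injective,
        Finset.card_univ, Fintype.card_fin]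
      intro hmem
      rw [Finset.mem_image] at hmem
      obtain ⟨t, _, ht⟩ := hmem
      exact hp ⟨t, ht⟩
    have hr : Set.range (s.orderEmbOfFin hcard) = insert p (Set.range K) := by
      rw [Finset.range_orderEmbOfFin, hs]
      simp
    have hpm : p ∈ Set.range (s.orderEmbOfFin hcard) := by
      rw [hr]; exact Set.mem_insert _ _
    obtain ⟨i, hi⟩ := hpm
    refine ⟨(s.orderEmbOfFin hcard, i), Finset.mem_coe.2 (Finset.mem_univ _), ?_⟩
    have h2 : (del (s.orderEmbOfFin hcard, i)).2 = p := hi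
    have h3 := range_del (s.orderEmbOfFin hcard, i)
    have hnot : (del (s.orderEmbOfFin hcard, i)).2 ∉ Set.range (del (s.orderEmbOfFin hcard, i)).1 := by
      rintro ⟨t, ht⟩
      exact Fin.succAbove_ne i t ((s.orderEmbOfFin hcard).injective ht)
    refine Prod.ext (oe_range _ _ ?_) h2
    have h4 : insert p (Set.range K) = insert p (Set.range (del (s.orderEmbOfFin hcard, i)).1) := by
      rw [← hr, h3, h2]
    rw [h2] at hnot
    have h5 := congrArg (fun S : Set (Fin N) => S \ {p}) h4
    simp only [Set.insert_sdiff_of_mem, Set.mem_singleton_iff] at h5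
    rw [Set.sdiff_singleton_eq_self hp, Set.sdiff_singleton_eq_self hnot] at h5
    exact h5.symm
  · intro x _
    rfl

/-- moving the entry `i` to the front -/
theorem movA {k : Type u} [Field k] {n N : ℕ} (c : (Fin (n + 1) → Fin N) → k)
    (hc : ∀ (v : Fin (n + 1) → Fin N) (σ : Equiv.Perm (Fin (n + 1))),
      c (v ∘ σ) = ((Equiv.Perm.sign σ : ℤ) : k) * c v) (v : Fin (n + 1) → Fin N) (i : Fin (n + 1)) :
    c (Fin.cons (v i) (fun t : Fin n => v (i.succAbove t))) = (-1 : k) ^ (i : ℕ) * c v := by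
  have h1 : (Fin.cons (v i) (fun t : Fin n => v (i.succAbove t)) : Fin (n + 1) → Fin N)
      = v ∘ (i.cycleRange.symm : Equiv.Perm (Fin (n + 1))) := by
    funext t
    refine Fin.cases ?_ (fun t => ?_) t
    · rw [Fin.cons_zero, Function.comp_apply, Fin.cycleRange_symm_zero]
    · rw [Fin.cons_succ, Function.comp_apply, Fin.cycleRange_symm_succ]
  rw [h1, hc, Equiv.Perm.sign_symm, Fin.sign_cycleRange]
  push_cast
  rfl

theorem t_NZA : S_NZA.{u} := by
  intro k _ N m c h hc0 hc _ _
  have step2 : ∀ (K : Fin (m + 1) → Fin N) (p : Fin N) (j : Fin (m + 1)),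
      c (Fin.cons p (Fin.cons (K j) (fun t : Fin m => K (j.succAbove t)) : Fin (m + 1) → Fin N))
        = (-1 : k) ^ (j : ℕ) * c (Fin.cons p K) := by
    intro K p j
    refine movA (fun w => c (Fin.cons p w)) ?_ K j
    intro v σ
    have h1 : (Fin.cons p (v ∘ σ) : Fin (m + 2) → Fin N)
        = (Fin.cons p v : Fin (m + 2) → Fin N) ∘ (Equiv.Perm.decomposeFin.symm (0, σ)) := by
      funext t
      refine Fin.cases ?_ (fun t => ?_) t
      · rw [Fin.cons_zero, Function.comp_apply, Equiv.Perm.decomposeFin_symm_apply_zero,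
          Fin.cons_zero]
      · rw [Fin.cons_succ, Function.comp_apply, Function.comp_apply,
          Equiv.Perm.decomposeFin_symm_apply_succ, Equiv.swap_self, Equiv.refl_apply, Fin.cons_succ]
    show c (Fin.cons p (v ∘ σ)) = _
    rw [h1, hc, Equiv.Perm.decomposeFin.symm_sign, if_pos rfl, one_mul]
  have key1 : ∀ (I : Fin (m + 2) ↪o Fin N) (i : Fin (m + 2)),
      (∑ j : Fin (m + 1), (if (i : ℕ) ≤ (j : ℕ) then
        c I * ((-1 : k) ^ ((i : ℕ) + (j : ℕ) + 1) *
          h (I i) (I j.succ) (fun t : Fin m => I (i.succAbove (j.succAbove t)))) else 0)) =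
      (fun (p : Fin N) (K : Fin (m + 1) → Fin N) => - ∑ j : Fin (m + 1),
        (if p < K j then c (Fin.cons p (Fin.cons (K j) (fun t : Fin m => K (j.succAbove t)) :
          Fin (m + 1) → Fin N)) * h p (K j) (fun t : Fin m => K (j.succAbove t)) else 0))
        (I i) (fun t : Fin (m + 1) => I (i.succAbove t)) := by
    intro I i
    show _ = - ∑ j : Fin (m + 1), _
    rw [← Finset.sum_neg_distrib]
    refine Finset.sum_congr rfl fun j _ => ?_
    by_cases hij : (i : ℕ) ≤ (j : ℕ)
    · have hsj : i.succAbove j = j.succ := by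
        rw [Fin.succAbove_of_le_castSucc]
        exact Fin.le_def.2 (by simpa using hij)
      have hlt : I i < I (i.succAbove j) := by
        apply I.strictMono
        rw [hsj]
        exact Fin.lt_def.2 (by simp; omega)
      have s1 := step2 (fun t => I (i.succAbove t)) (I i) j
      have s2 := movA c hc I i
      rw [if_pos hij, if_pos hlt]
      beta_reduce
      beta_reduce at s1 s2
      rw [s1, s2, hsj]
      have e1 : (-1 : k) ^ ((i : ℕ) + (j : ℕ) + 1) = - ((-1 : k) ^ (j : ℕ) * (-1 : k) ^ (i : ℕ)) := by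
        rw [pow_succ, pow_add]; ring
      rw [e1]
      ring
    · have hlt : ¬ I i < I (i.succAbove j) := by
        intro hl
        have hl2 := I.lt_iff_lt.1 hl
        rw [Fin.succAbove_of_castSucc_lt] at hl2
        · have := Fin.lt_def.1 hl2
          simp at this
          omega
        · exact Fin.lt_def.2 (by simp; omega)
      rw [if_neg hij, if_neg hlt, neg_zero]
  simp_rw [key1]
  rw [sumA (m + 1) N (fun (p : Fin N) (K : Fin (m + 1) → Fin N) => - ∑ j : Fin (m + 1),
        (if p < K j then c (Fin.cons p (Fin.cons (K j) (fun t : Fin m => K (j.succAbove t)) :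
          Fin (m + 1) → Fin N)) * h p (K j) (fun t : Fin m => K (j.succAbove t)) else 0))]
  · simp_rw [Finset.sum_neg_distrib]
    congr 1
    rw [Finset.sum_comm]
    have e2 : ∑ J : Fin m ↪o Fin N, ∑ p : Fin N, ∑ q : Fin N,
        (if p < q then c (Fin.cons p (Fin.cons q J : Fin (m + 1) → Fin N)) * h p q J else 0)
        = ∑ p : Fin N, ∑ J : Fin m ↪o Fin N, ∑ q : Fin N,
        (if p < q then c (Fin.cons p (Fin.cons q J : Fin (m + 1) → Fin N)) * h p q J else 0) :=
      Finset.sum_comm
    rw [e2]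
    refine Finset.sum_congr rfl fun p _ => ?_
    refine sumA m N (fun (q : Fin N) (J : Fin m → Fin N) =>
      (if p < q then c (Fin.cons p (Fin.cons q J : Fin (m + 1) → Fin N)) * h p q J else 0)) ?_
    intro J q hq
    obtain ⟨t, ht⟩ := hq
    have : c (Fin.cons p (Fin.cons q J : Fin (m + 1) → Fin N)) = 0 := by
      apply hc0
      intro hinj
      have h3 := @hinj (Fin.succ 0) (Fin.succ (Fin.succ t)) (by
        rw [Fin.cons_succ, Fin.cons_succ, Fin.cons_zero, Fin.cons_succ, ht])
      have h4 := Fin.succ_injective _ h3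
      exact (Fin.succ_ne_zero t) h4.symm
    show (if p < q then _ else _) = _
    rw [this, zero_mul, ite_self]
  · intro K p hp
    show - ∑ j : Fin (m + 1), _ = _
    rw [neg_eq_zero]
    refine Finset.sum_eq_zero fun j _ => ?_
    rw [step2]
    have : c (Fin.cons p K) = 0 := by
      apply hc0
      intro hinj
      obtain ⟨t, ht⟩ := hp
      have h3 := @hinj 0 (Fin.succ t) (by rw [Fin.cons_zero, Fin.cons_succ, ht])
      exact (Fin.succ_ne_zero t) h3.symm
    rw [this, mul_zero, zero_mul, ite_self]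

end Pool.Agent.W368.BK
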